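import Pool.Agent.H48.ER.Lib
import Pool.Agent.H56.ER2.Lib

/-!
# MP_816b90_co: (AST) further facts on the two paths
-/

set_option autoImplicit false

namespace Pool.Agent.H25.ER2

open Pool.Agent.H48.ER Pool.Agent.H52.ER2 Pool.Agent.H66.ER2 Pool.Agent.H56.ER2

variable {V : Type} {G : SimpleGraph V} {v : V} {n p q : ℕ} {z y x : ℕ → V}

theorem as0_swap (h : As0 G v n z p q y x) : As0 G v n z q p x y where
  py := h.px
  px := h.py
  ay := h.ax
  ax := h.ay
  b := by rw [h.xy]; exact h.b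
  xy := h.xy.symm
  oAy := h.oAx
  oBy := h.oBx
  oAx := h.oAy
  oBx := h.oBy
  ny := h.nx
  nx := h.ny

/-- one path is outgoing -/
theorem as0_ogy (h : As0 G v n z p q y x) : Og G v n z p (y 0) (y p) (seg y 0 p) := by
  refine ⟨?_, h.ay, h.b, ?_, ?_⟩
  · have := PF.sub h.py (Nat.zero_le p) le_rfl
    simpa using this
  · rintro w ⟨k, k1, k2, rfl⟩ hw
    rw [h.oAy k k2 hw]
  · rintro w ⟨k, k1, k2, rfl⟩ hw
    rw [h.oBy k k2 hw]

/-- half of the facts -/
structure Half (G : SimpleGraph V) (v : V) (n : ℕ) (z : ℕ → V) (p q : ℕ) (y x : ℕ → V) :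
    Prop where
  ep : Even p
  p2 : 2 ≤ p
  vy : ∀ k, k ≤ p → y k ≠ v
  zy : ∀ k, k ≤ p → y k ≠ z 1
  vzy : ∀ k, 1 ≤ k → k ≤ p → G.Adj v (y k) → ¬ G.Adj (z 1) (y k)
  ty : ∀ k, 1 ≤ k → k < p → G.Adj v (y k) → Ty0 G n z (y k)

theorem half (hS : Stg G v n z) (hF : Fab G v n z)
    (hO : ∀ (m : ℕ) (a b : V) (R : Set V), Og G v n z m a b R → Even m)
    (h : As0 G v n z p q y x) : Half G v n z p q y x := by
  have h4 := hF.four
  have z1W : z 1 ∈ Wz n z := ⟨1, by omega, by omega, rfl⟩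
  have ep := hO _ _ _ _ (as0_ogy h)
  have p0 : p ≠ 0 := by
    intro e
    have := (hF.ab _ h.ay _ h.b).1
    rw [e] at this
    exact this rfl
  have vx0 : G.Adj v (x 0) := h.ax.1
  have vy0 : G.Adj v (y 0) := h.ay.1
  refine ⟨ep, ?_, ?_, ?_, ?_, ?_⟩
  · obtain ⟨t, ht⟩ := ep
    omega
  · intro k hk e
    have h1 : k = 0 := (h.nx k hk).2.1 (by rw [e]; exact vx0.symm)
    rw [h1] at e
    rw [e] at vy0
    exact G.loopless.irrefl _ vy0
  · intro k hk e
    have h1 : k = 0 := (h.nx k hk).2.1 (by rw [e]; exact h.ax.2.1)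
    rw [h1] at e
    exact (hF.vw _ z1W).2 (by rw [← e]; exact vy0)
  · intro k k1 k2 hv hz
    have h1 := hS.f1 (z 1) (hF.vw _ z1W).1 (fun hh => (hF.vw _ z1W).2 hh.symm) (x 0) (y k) vx0 hv
      h.ax.2.1.symm hz (h.nx k k2).1.symm
    have := (h.nx k k2).2.1 h1
    omega
  · intro k k1 k2 hv
    rcases hF.ty (y k) hv with h1 | h1 | h1 | h1
    · exact h1
    · have := h.oAy k k2.le h1
      omega
    · have := h.oBy k k2.le h1
      omega
    · have := (h.nx k k2.le).2.1 (h1.1 _ h.ax).symm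
      omega

/-- the last neighbour of `z 1` has an even index -/
theorem lastEven (hF : Fab G v n z)
    (hO : ∀ (m : ℕ) (a b : V) (R : Set V), Og G v n z m a b R → Even m)
    (h : As0 G v n z p q y x) (hq : Even q) (hzx : ∀ k, k ≤ q → x k ≠ z 1) (e : ℕ) (e1 : 1 ≤ e)
    (e2 : e ≤ q) (hz : G.Adj (z 1) (x e)) (hl : ∀ l, e < l → l ≤ q → ¬ G.Adj (z 1) (x l)) :
    Even e := by
  have h4 := hF.four
  have z1W : z 1 ∈ Wz n z := ⟨1, by omega, by omega, rfl⟩
  have nzv := (hF.vw _ z1W).2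
  have h1 := PF.sub h.px e2 le_rfl
  have h2 : IP G (q - e + 1) (z 1) (x q) (insert (z 1) (seg x e q)) := by
    refine h1.cons ?_ ?_
    · rintro ⟨k, k1, k2, hk⟩
      exact hzx k k2 hk
    · rintro w ⟨k, k1, k2, rfl⟩
      constructor
      · intro hh
        by_contra hne
        exact hl k (lt_of_le_of_ne k1 (fun e' => hne (by rw [e']))) k2 hh
      · intro hh
        rw [hh]
        exact hz
  have h3 : IP G (q - e + 1 + 1) (y 0) (x q) (insert (y 0) (insert (z 1) (seg x e q))) := by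
    refine h2.cons ?_ ?_
    · rintro (hh | ⟨k, k1, k2, hk⟩)
      · rw [← hh] at nzv
        exact nzv h.ay.1
      · exact (h.ny k k2).1 hk
    · rintro w (rfl | ⟨k, k1, k2, rfl⟩)
      · exact ⟨fun _ => rfl, fun _ => h.ay.2.1⟩
      · constructor
        · intro hh
          have := (h.ny k k2).2.1 hh
          omega
        · intro hh
          exact (hzx k k2 hh).elim
  have h5 := hO _ _ _ _ (⟨h3, h.ay, by rw [h.xy]; exact h.b, ?_, ?_⟩ :
    Og G v n z (q - e + 1 + 1) (y 0) (x q) (insert (y 0) (insert (z 1) (seg x e q))))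
  · obtain ⟨s, hs⟩ := h5
    obtain ⟨t, ht⟩ := hq
    exact ⟨t - (s - 1), by omega⟩
  · rintro w (rfl | rfl | ⟨k, k1, k2, rfl⟩) hw
    · rfl
    · exact (nzv hw.1).elim
    · have := h.oAx k k2 hw
      omega
  · rintro w (rfl | rfl | ⟨k, k1, k2, rfl⟩) hw
    · exact ((hF.ab _ h.ay _ hw).1 rfl).elim
    · exact (nzv hw.1).elim
    · rw [h.oBx k k2 hw]

theorem pf_AST : T_AST := by
  intro V G v n z p q y x hS hF hO h
  have a := half hS hF hO h
  have b := half hS hF hO (as0_swap h)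
  exact
    { toAs0 := h
      ep := a.ep
      eq := b.ep
      p2 := a.p2
      q2 := b.p2
      vy := a.vy
      vx := b.vy
      zy := a.zy
      zx := b.zy
      vzy := a.vzy
      vzx := b.vzy
      ty := a.ty
      tx := b.ty
      ey := fun e e1 e2 hz hl => lastEven hF hO (as0_swap h) a.ep a.zy e e1 e2 hz hl
      ex := fun e e1 e2 hz hl => lastEven hF hO h b.ep b.zy e e1 e2 hz hl }

end Pool.Agent.H25.ER2
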