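import Pool.Agent.H48.ER.Lib
import Pool.Agent.H56.ER2.Lib

/-!
# MP_816b90_co: (IC1) a stable pair is an even pair
-/

set_option autoImplicit false

namespace Pool.Agent.H25.ER2

open Pool.Agent.H48.ER Pool.Agent.H52.ER2 Pool.Agent.H66.ER2 Pool.Agent.H56.ER2

theorem pf_IC1 (hFCT : T_FCT) (hOGE : T_OGE) : T_IC1 := by
  intro V G v n z a b hS ha hb hA hB
  have F := hFCT V G v n z hS
  refine ⟨(F.ab a ha b hb).1, (F.ab a ha b hb).2, ?_⟩
  intro m R hR
  obtain ⟨g, hg, h0, hm, rfl⟩ := IP.toPF hR
  have hinj := hg.inj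
  have hadj := hg.adj
  subst h0
  subst hm
  have m0 : m ≠ 0 := by
    rintro rfl
    exact (F.ab _ ha _ hb).1 rfl
  have m1 : m ≠ 1 := by
    rintro rfl
    exact (F.ab _ ha _ hb).2 ((hadj 0 1 (by omega) le_rfl).2 (Or.inl rfl))
  have iA : ∀ k, k ≤ m → g k ∈ sA G v n z → k = 0 ∨ k = 1 := by
    intro k hk h
    by_contra hc
    push Not at hc
    have hne : g 0 ≠ g k := fun e => hc.1 (hinj 0 k (by omega) hk e).symm
    have := F.clA (g 0) ha (g k) h hne
    rw [hadj 0 k (by omega) hk] at this
    omega
  have iB : ∀ k, k ≤ m → g k ∈ sB G v n z → k = m ∨ k + 1 = m := by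
    intro k hk h
    by_contra hc
    push Not at hc
    have hne : g m ≠ g k := fun e => hc.1 (hinj m k le_rfl hk e).symm
    have := F.clB (g m) hb (g k) h hne
    rw [hadj m k le_rfl hk] at this
    omega
  -- an outgoing part
  have og : ∀ i j, i ≤ j → j ≤ m → g i ∈ sA G v n z → g j ∈ sB G v n z →
      (∀ k, i ≤ k → k ≤ j → g k ∈ sA G v n z → k = i) →
      (∀ k, i ≤ k → k ≤ j → g k ∈ sB G v n z → k = j) →
      Og G v n z (j - i) (g i) (g j) (seg g i j) := by
    intro i j hij hj h1 h2 h3 h4
    refine ⟨PF.sub hg hij hj, h1, h2, ?_, ?_⟩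
    · rintro w ⟨k, k1, k2, rfl⟩ hw
      rw [h3 k k1 k2 hw]
    · rintro w ⟨k, k1, k2, rfl⟩ hw
      rw [h4 k k1 k2 hw]
  by_contra hodd
  rw [Nat.not_even_iff_odd] at hodd
  have m3 : 3 ≤ m := by
    obtain ⟨t, ht⟩ := hodd
    omega
  by_cases h1 : g 1 ∈ sA G v n z
  · by_cases h2 : g (m - 1) ∈ sB G v n z
    · have := hOGE V G v n z hS _ _ _ _ (og 1 (m - 1) (by omega) (by omega) h1 h2
        (fun k k1 k2 hk => by rcases iA k (by omega) hk with e | e <;> omega)
        (fun k k1 k2 hk => by rcases iB k (by omega) hk with e | e <;> omega))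
      obtain ⟨t, ht⟩ := this
      obtain ⟨s, hs⟩ := hodd
      omega
    · refine hA (g 1) ⟨m - 1, seg g 1 m, ?_, ha, ?_, ?_⟩
      · refine og 1 m (by omega) le_rfl h1 hb
          (fun k k1 k2 hk => by rcases iA k (by omega) hk with e | e <;> omega)
          (fun k k1 k2 hk => ?_)
        rcases iB k (by omega) hk with e | e
        · exact e
        · exact (h2 (by rwa [show m - 1 = k by omega])).elim
      · rintro ⟨k, k1, k2, e⟩
        have := hinj k 0 k2 (by omega) e
        omega
      · rintro w ⟨k, k1, k2, rfl⟩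
        rw [hadj 0 k (by omega) k2]
        constructor
        · intro h
          rw [show k = 1 by omega]
        · intro h
          have := hinj k 1 k2 (by omega) h
          omega
  · have nA : ∀ k, k ≤ m → g k ∈ sA G v n z → k = 0 := by
      intro k hk h
      rcases iA k hk h with e | e
      · exact e
      · exact (h1 (by rwa [e] at h)).elim
    by_cases h2 : g (m - 1) ∈ sB G v n z
    · refine hB (g (m - 1)) ⟨m - 1 - 0, seg g 0 (m - 1), ?_, hb, ?_, ?_⟩
      · exact og 0 (m - 1) (by omega) (by omega) ha h2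
          (fun k k1 k2 hk => nA k (by omega) hk)
          (fun k k1 k2 hk => by rcases iB k (by omega) hk with e | e <;> omega)
      · rintro ⟨k, k1, k2, e⟩
        have := hinj k m (by omega) le_rfl e
        omega
      · rintro w ⟨k, k1, k2, rfl⟩
        rw [hadj m k le_rfl (by omega)]
        constructor
        · intro h
          rw [show k = m - 1 by omega]
        · intro h
          have := hinj k (m - 1) (by omega) (by omega) h
          omega
    · have nB : ∀ k, k ≤ m → g k ∈ sB G v n z → k = m := by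
        intro k hk h
        rcases iB k hk h with e | e
        · exact e
        · exact (h2 (by rwa [show m - 1 = k by omega])).elim
      have := hOGE V G v n z hS _ _ _ _ (og 0 m (by omega) le_rfl ha hb
        (fun k k1 k2 hk => nA k k2 hk) (fun k k1 k2 hk => nB k k2 hk))
      obtain ⟨t, ht⟩ := this
      obtain ⟨s, hs⟩ := hodd
      omega

end Pool.Agent.H25.ER2
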